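import Pool.Agent.MNE.StmtsD

/-!
# MNE, row YEZ (helper97): `y = z` has finitely many solutions for every fixed pair of exponents
-/

set_option autoImplicit false

namespace Pool.Agent.MNE.H97

open Pool.Agent.MNE Polynomial

/-- the polynomial whose roots contain all values `B = 2 f g` -/
noncomputable def yp (x z : ℕ) : ℚ[X] :=
  (C 2 * X ^ 2 + C 2 * X + 1) ^ x - ((X + 1) ^ z - X ^ z) ^ 2

lemma yp_eval (x z : ℕ) (t : ℚ) :
    (yp x z).eval t = (2 * t ^ 2 + 2 * t + 1) ^ x - ((t + 1) ^ z - t ^ z) ^ 2 := by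
  simp [yp]

lemma yp_ne (x z : ℕ) (hx : 0 < x) (hxz : x < z) : yp x z ≠ 0 := by
  intro h0
  have h := yp_eval x z (-1 / 2)
  rw [h0, eval_zero] at h
  have e1 : (2 * (-1 / 2 : ℚ) ^ 2 + 2 * (-1 / 2) + 1) = 1 / 2 := by norm_num
  have e2 : ((-1 / 2 : ℚ) + 1) = 1 / 2 := by norm_num
  rw [e1, e2] at h
  rcases Nat.even_or_odd z with hz | hz
  · have e3 : (-1 / 2 : ℚ) ^ z = (1 / 2) ^ z := by
      rw [show (-1 / 2 : ℚ) = -(1 / 2) by norm_num, hz.neg_pow]
    rw [e3, sub_self] at h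
    have h4 : (0 : ℚ) < (1 / 2) ^ x := by positivity
    have h5 : (0 : ℚ) ^ 2 = 0 := by norm_num
    rw [h5] at h
    linarith
  · have e3 : (-1 / 2 : ℚ) ^ z = -(1 / 2) ^ z := by
      rw [show (-1 / 2 : ℚ) = -(1 / 2) by norm_num, hz.neg_pow]
    rw [e3] at h
    obtain ⟨k, hk⟩ : ∃ k, z = k + 1 := ⟨z - 1, by omega⟩
    have e4 : ((1 / 2 : ℚ) ^ z - -(1 / 2) ^ z) ^ 2 = (1 / 2) ^ (2 * k) := by
      rw [hk, pow_succ, pow_mul']
      ring
    rw [e4] at h
    have h5 : (1 / 2 : ℚ) ^ x = (1 / 2) ^ (2 * k) := by linarith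
    have h6 : (1 / 2 : ℚ) ^ (2 * k) < (1 / 2) ^ x := by
      apply pow_lt_pow_right_of_lt_one₀ (by norm_num) (by norm_num)
      omega
    linarith

/-- the reduction to `A = B + 1` -/
lemma root (bas : BasStmt) {f g x z : ℕ} (h : Sol f g x z z) :
    (yp x z).IsRoot (((2 * f * g : ℕ)) : ℚ) := by
  obtain ⟨-, hxz, -, -, -, hBC, hAC, -, -, -, coAC, coAB, -, -, -, -, -, -⟩ := bas f g x z z h
  have hfg : g < f := by have := h.hd; omega
  have hpyth : (f ^ 2 - g ^ 2) ^ 2 + (2 * f * g) ^ 2 = (f ^ 2 + g ^ 2) ^ 2 := by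
    have h1 : g ^ 2 ≤ f ^ 2 := Nat.pow_le_pow_left hfg.le 2
    zify [h1]
    ring
  have hodd : Odd (f ^ 2 + g ^ 2) := by
    have h1 := h.odd
    rw [Nat.odd_add] at h1 ⊢
    rw [Nat.odd_pow_iff two_ne_zero, Nat.even_pow' two_ne_zero]
    exact h1
  have heq := h.eq
  have hg := h.hg
  have hx := h.hx
  have hz := h.hz
  have hC : 0 < f ^ 2 + g ^ 2 := by positivity
  generalize f ^ 2 - g ^ 2 = A at *
  generalize f ^ 2 + g ^ 2 = K at *
  generalize 2 * f * g = B at *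
  have hBA : B < A := by
    apply lt_of_pow_lt_pow_left₀ z (Nat.zero_le _)
    rw [← heq]
    have := Nat.pow_pos (n := x) hC
    omega
  have hd : A - B ∣ K ^ x := by
    have h1 := Nat.sub_dvd_pow_sub_pow A B z
    have h2 : A ^ z - B ^ z = K ^ x := by omega
    rwa [h2] at h1
  have hco : Nat.Coprime (A - B) K := by
    rw [Nat.coprime_iff_gcd_eq_one]
    by_contra hne
    obtain ⟨p, hp, hpd⟩ := Nat.exists_prime_and_dvd hne
    have h1 : p ∣ A - B := hpd.trans (Nat.gcd_dvd_left _ _)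
    have h2 : p ∣ K := hpd.trans (Nat.gcd_dvd_right _ _)
    have h3 : p ∣ 2 * A ^ 2 := by
      have h4 : (p : ℤ) ∣ (A : ℤ) - B := by
        have := Int.natCast_dvd_natCast.mpr h1
        rwa [Nat.cast_sub hBA.le] at this
      have h5 : (p : ℤ) ∣ (K : ℤ) := Int.natCast_dvd_natCast.mpr h2
      have h6 : (2 * A ^ 2 : ℤ) = K * K + (A - B) * (A + B) := by
        have : ((A : ℤ) ^ 2 + (B : ℤ) ^ 2) = (K : ℤ) ^ 2 := by exact_mod_cast hpyth
        linear_combination this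
      have h7 : (p : ℤ) ∣ (2 * A ^ 2 : ℤ) := by
        rw [h6]
        exact dvd_add (h5.mul_right _) (h4.mul_right _)
      exact_mod_cast h7
    rcases (Nat.Prime.dvd_mul hp).mp h3 with h4 | h4
    · have h5 : p = 2 := (Nat.prime_dvd_prime_iff_eq hp Nat.prime_two).mp h4
      rw [h5] at h2
      exact (Nat.not_even_iff_odd.mpr hodd) (even_iff_two_dvd.mpr h2)
    · have h5 : p ∣ A := hp.dvd_of_dvd_pow h4
      have h6 : p ∣ Nat.gcd A K := Nat.dvd_gcd h5 h2
      rw [Nat.coprime_iff_gcd_eq_one.mp coAC] at h6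
      exact hp.one_lt.ne' (Nat.dvd_one.mp h6)
  have h1 : A - B = 1 := Nat.Coprime.eq_one_of_dvd (Nat.Coprime.pow_right x hco) hd
  have hA : A = B + 1 := by omega
  subst hA
  rw [IsRoot.def, yp_eval, sub_eq_zero]
  have e1 : ((K : ℚ)) ^ 2 = 2 * (B : ℚ) ^ 2 + 2 * B + 1 := by
    have : (((B + 1 : ℕ) : ℚ) ^ 2 + (B : ℚ) ^ 2) = (K : ℚ) ^ 2 := by exact_mod_cast hpyth
    push_cast at this
    linear_combination -this
  have e2 : ((K : ℚ)) ^ x = ((B : ℚ) + 1) ^ z - (B : ℚ) ^ z := by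
    have : ((K : ℚ)) ^ x + (B : ℚ) ^ z = ((B + 1 : ℕ) : ℚ) ^ z := by exact_mod_cast heq
    push_cast at this
    linear_combination this
  rw [← e1, ← e2]
  ring

/-- **Row YEZ.** -/
theorem yez (bas : BasStmt) : YezStmt := by
  intro x z
  by_cases hxz : 0 < x ∧ x < z
  · have hfin : {t : ℚ | (yp x z).IsRoot t}.Finite :=
      finite_setOfPred_isRoot (yp_ne x z hxz.1 hxz.2)
    obtain ⟨M, hM⟩ := hfin.bddAbove
    obtain ⟨N, hN⟩ := exists_nat_ge M
    apply Set.Finite.subset ((Set.finite_Iic N).prod (Set.finite_Iic N))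
    rintro ⟨f, g⟩ h
    have h : Sol f g x z z := h
    have h1 : (((2 * f * g : ℕ)) : ℚ) ≤ M := hM (root bas h)
    have h2 : 2 * f * g ≤ N := by exact_mod_cast h1.trans hN
    have hg := h.hg
    have hf : 0 < f := by have := h.hd; omega
    refine ⟨?_, ?_⟩
    · show f ≤ N
      nlinarith [Nat.mul_le_mul_left f (show 1 ≤ g from hg)]
    · show g ≤ N
      nlinarith [Nat.mul_le_mul_right g (show 1 ≤ f from hf)]
  · apply Set.Finite.subset (Set.finite_empty)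
    rintro ⟨f, g⟩ h
    have h : Sol f g x z z := h
    exact absurd ⟨h.hx, (bas f g x z z h).2.1⟩ hxz

end Pool.Agent.MNE.H97
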